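import Mathlib
import Pool.Agent.H32.QRatio

namespace Pool.Agent.Results.MP_2e34cc_co.Denom

open Finset

/-- The field `ℚ(a, b, c, q)`. -/
abbrev K := FractionRing (MvPolynomial (Fin 4) ℚ)

noncomputable def a : K := algebraMap (MvPolynomial (Fin 4) ℚ) K (MvPolynomial.X 0)
noncomputable def b : K := algebraMap (MvPolynomial (Fin 4) ℚ) K (MvPolynomial.X 1)
noncomputable def c : K := algebraMap (MvPolynomial (Fin 4) ℚ) K (MvPolynomial.X 2)
noncomputable def q : K := algebraMap (MvPolynomial (Fin 4) ℚ) K (MvPolynomial.X 3)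

/-- `(x; q)_n`. -/
noncomputable def poch (x : K) (n : ℕ) : K := ∏ j ∈ range n, (1 - x * q ^ j)

/-- The series `₂φ₁(x, y; w; q, z)` in `K⟦z⟧`. -/
noncomputable def phi (x y w : K) : PowerSeries K :=
  PowerSeries.mk fun n => poch x n * poch y n / (poch q n * poch w n)

/-- The coefficient `γ_n`. -/
noncomputable def gam (n : ℕ) : K :=
  PowerSeries.coeff n (phi (a * q) (b * q) (c * q) * (phi a b c)⁻¹)

/-- `D_n = ∏_{k=0}^n (1 - c q^k)^⌊(n+1)/(k+1)⌋`. -/
noncomputable def D (n : ℕ) : K := ∏ k ∈ range (n + 1), (1 - c * q ^ k) ^ ((n + 1) / (k + 1))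

open Pool.Agent.H32.QRatio in
theorem result (n : ℕ) : ∃ P : MvPolynomial (Fin 4) ℤ,
    gam n / (1 - c) = MvPolynomial.aeval ![a, b, c, q] P / D n := by
  have m : ∀ i : Fin 4, (![a, b, c, q] : Fin 4 → K) i ∈
      (MvPolynomial.aeval (R := ℤ) (![a, b, c, q] : Fin 4 → K)).toRingHom.range :=
    fun i => ⟨MvPolynomial.X i, by simp⟩
  obtain ⟨P, hP⟩ := (main _ (m 0) (m 1) (m 2) (m 3) (ne_one 3 3) (ne_one 2 3) n).1
  have hD : D n ≠ 0 := prod_ne_zero_iff.2 fun k _ => pow_ne_zero _ (ne_one 2 3 k)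
  refine ⟨P, ?_⟩
  rw [eq_div_iff hD, mul_comm]
  exact hP.symm

end Pool.Agent.Results.MP_2e34cc_co.Denom
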